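import Pool.Agent.Run7.h506.TA.Stm
import Pool.Agent.W103.TL.J3

set_option autoImplicit false

/-! Project TA, piece J3 (helper781): the proof of helper103 with larger errors. -/

namespace Pool.Agent.Run7.h781.TA

open Set Filter Topology Pool.Agent.W774.TL Pool.Agent.W103.TLJ3 Pool.Agent.Run7.h506.TA

/-- numerical consequences of A large -/
lemma big2 (A : ℝ) (hA : 10 ^ 8 ≤ A) :
    1 / 10 ^ 9 + Real.exp (-(A / 1000)) ≤ 1 / 100000 ∧
    A / 10 ^ 9 + 4 * A * Real.exp (-(A / 1000)) ≤ A / 100000 := by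
  have hA0 : 0 < A := by linarith [show (0 : ℝ) < 10 ^ 8 by norm_num]
  have h1 := Real.quadratic_le_exp_of_nonneg (x := A / 1000) (by positivity)
  have h2 : Real.exp (-(A / 1000)) ≤ 2000000 / A ^ 2 := by
    rw [Real.exp_neg, inv_eq_one_div, div_le_div_iff₀ (Real.exp_pos _) (by positivity)]
    have : (A / 1000) ^ 2 / 2 = A ^ 2 / 2000000 := by ring
    nlinarith
  have hAA : (10 : ℝ) ^ 16 ≤ A ^ 2 := by nlinarith
  have h3 : Real.exp (-(A / 1000)) ≤ 1 / 10 ^ 9 := by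
    refine h2.trans ?_
    rw [div_le_div_iff₀ (by positivity) (by norm_num)]
    nlinarith
  constructor
  · refine (add_le_add_right h3 _).trans ?_
    norm_num
  · have h4 : 4 * A * Real.exp (-(A / 1000)) ≤ 4 * A * (1 / 10 ^ 9) :=
      mul_le_mul_of_nonneg_left h3 (by positivity)
    norm_num at h4 ⊢
    linarith

/-- the derivative estimates in the smaller region -/
lemma deriv_bd2 (A τ a p a' p' : ℝ) (hA : 10 ^ 8 ≤ A)
    (h1 : 1 / 500 ≤ τ) (h2 : τ ≤ 1 / 2)
    (hb : |a - τ| ≤ 82 / 100000) (hp : |p - A * (3 / 2 + 3 * τ)| ≤ 266 / 100000 * A)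
    (hs : |a' - sg (yy A τ a p)| ≤ 1 / 10 ^ 9 ∧
      |p' - A * ((1 - sg (yy A τ a p)) * Co a + 3 * sg (yy A τ a p) * Co (a - τ))| ≤ A / 10 ^ 9) :
    |a' - 1| ≤ 1 / 100000 ∧ |p' - 3 * A| ≤ 505 / 10000000 * A := by
  have hA0 : 0 < A := by linarith [show (0 : ℝ) < 10 ^ 8 by norm_num]
  obtain ⟨hbig1, hbig2⟩ := big2 A hA
  obtain ⟨_, hy⟩ := region A τ a p hA0 h1 h2 hb hp
  obtain ⟨hs1, hs2⟩ := hs
  set y := yy A τ a p with hy'
  set s := sg y with hs'
  set e := Real.exp (-(A / 1000)) with he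
  have he0 : 0 < e := Real.exp_pos _
  have h3 : 1 - s ≤ e := (one_sub_sg y).trans (Real.exp_le_exp.2 (by linarith))
  have h4 : 0 ≤ s := sg_nonneg y
  have h5 : s ≤ 1 := sg_le_one y
  have hs1' := abs_le.1 hs1
  constructor
  · rw [abs_le]; constructor <;> linarith
  · have h6 := Co_bd (a - τ)
    have h7 : (a - τ) ^ 2 ≤ (82 / 100000) ^ 2 := by
      rw [← sq_abs]
      exact pow_le_pow_left₀ (abs_nonneg _) hb 2
    have h8 : |1 - Co (a - τ)| ≤ 20 * (82 / 100000) ^ 2 := by linarith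
    have h9 : |Co a| ≤ 1 := Real.abs_cos_le_one _
    have h10 : |Co (a - τ)| ≤ 1 := Real.abs_cos_le_one _
    set u := Co a with hu
    set w := Co (a - τ) with hw
    have h8' := abs_le.1 h8
    have h9' := abs_le.1 h9
    have h10' := abs_le.1 h10
    have h11 : |(1 - s) * u + 3 * s * w - 3| ≤ 4 * e + 3 * (20 * (82 / 100000) ^ 2) := by
      have e1 : (1 - s) * u + 3 * s * w - 3 = (1 - s) * (u - 3 * w) - 3 * (1 - w) := by ring
      rw [e1]
      have e2 : |(1 - s) * (u - 3 * w)| ≤ 4 * e := by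
        rw [abs_mul, abs_of_nonneg (by linarith : 0 ≤ 1 - s)]
        have e3 : |u - 3 * w| ≤ 4 := by rw [abs_le]; constructor <;> linarith
        calc (1 - s) * |u - 3 * w| ≤ e * 4 := by
              apply mul_le_mul h3 e3 (abs_nonneg _) he0.le
          _ = 4 * e := by ring
      have e4 : |3 * (1 - w)| ≤ 3 * (20 * (82 / 100000) ^ 2) := by
        rw [abs_mul, abs_of_pos (by norm_num : (0 : ℝ) < 3)]
        linarith
      exact (abs_sub _ _).trans (add_le_add e2 e4)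
    have h12 : |A * ((1 - s) * u + 3 * s * w) - 3 * A| ≤
        A * (4 * e + 3 * (20 * (82 / 100000) ^ 2)) := by
      have e5 : A * ((1 - s) * u + 3 * s * w) - 3 * A = A * ((1 - s) * u + 3 * s * w - 3) := by
        ring
      rw [e5, abs_mul, abs_of_pos hA0]
      exact mul_le_mul_of_nonneg_left h11 hA0.le
    have h13 := abs_add_le (p' - A * ((1 - s) * u + 3 * s * w)) (A * ((1 - s) * u + 3 * s * w) - 3 * A)
    have h14 : p' - A * ((1 - s) * u + 3 * s * w) + (A * ((1 - s) * u + 3 * s * w) - 3 * A) =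
        p' - 3 * A := by ring
    rw [h14] at h13
    refine h13.trans ?_
    have h15 : A * (4 * e + 3 * (20 * (82 / 100000) ^ 2)) =
        4 * A * e + A * (3 * (20 * (82 / 100000) ^ 2)) := by ring
    rw [h15] at h12
    norm_num at h12 ⊢
    nlinarith

theorem t_J3 : S_J3 := by
  refine ⟨10 ^ 8, fun A hA a p a' p' hsys hb0 hp0 => ?_⟩
  have hA0 : 0 < A := by linarith [show (0 : ℝ) < 10 ^ 8 by norm_num]
  set F : ℝ → ℝ := fun τ => ((a τ - τ) - (a (1 / 500) - 1 / 500)) / (1 / 50000) with hF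
  set H : ℝ → ℝ := fun τ => (p τ - p (1 / 500) - 3 * A * (τ - 1 / 500)) / (3 * A / 50000) with hH
  set Φ : ℝ → ℝ × ℝ := fun τ => (F τ, H τ) with hΦ
  set Φ' : ℝ → ℝ × ℝ := fun τ => ((a' τ - 1) / (1 / 50000), (p' τ - 3 * A) / (3 * A / 50000))
    with hΦ'
  have hder : ∀ τ ∈ Icc (1 / 500 : ℝ) (1 / 2), HasDerivAt Φ (Φ' τ) τ := by
    intro τ hτ
    obtain ⟨h1, h2, _⟩ := hsys τ hτ
    apply HasDerivAt.prodMk
    · exact (((h1.sub (hasDerivAt_id τ)).sub_const _).div_const _)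
    · have h3 : HasDerivAt (fun τ => 3 * A * (τ - 1 / 500)) (3 * A) τ := by
        have := ((hasDerivAt_id τ).sub_const (1 / 500)).const_mul (3 * A)
        simpa using this
      exact ((h2.sub_const _).sub h3).div_const _
  -- consequences of the norm bound
  have hcons : ∀ τ ∈ Icc (1 / 500 : ℝ) (1 / 2), ‖Φ τ‖ ≤ 1 →
      |a τ - τ| ≤ 82 / 100000 ∧ |p τ - A * (3 / 2 + 3 * τ)| ≤ 266 / 100000 * A := by
    intro τ hτ hn
    have hn1 : |F τ| ≤ 1 := (norm_fst_le (Φ τ)).trans hn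
    have hn2 : |H τ| ≤ 1 := (norm_snd_le (Φ τ)).trans hn
    rw [hF] at hn1
    rw [hH] at hn2
    simp only at hn1 hn2
    rw [abs_div, div_le_one (by positivity), abs_of_pos (by norm_num : (0 : ℝ) < 1 / 50000)] at hn1
    rw [abs_div, div_le_one (by positivity), abs_of_pos (by positivity : (0 : ℝ) < 3 * A / 50000)]
      at hn2
    have g1 := abs_le.1 hn1
    have g2 := abs_le.1 hn2
    have g3 := abs_le.1 hb0
    have g4 := abs_le.1 hp0
    constructor
    · rw [abs_le]; constructor <;> linarith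
    · rw [abs_le]; constructor <;> nlinarith
  have hmain : ∀ ⦃τ⦄, τ ∈ Icc (1 / 500 : ℝ) (1 / 2) → ‖Φ τ‖ ≤ τ - 1 / 500 := by
    refine image_norm_le_of_norm_deriv_right_lt_deriv_boundary (f := Φ) (f' := Φ')
      (B := fun τ => τ - 1 / 500) (B' := fun _ => 1) ?_ ?_ ?_ ?_ ?_
    · exact fun τ hτ => (hder τ hτ).continuousAt.continuousWithinAt
    · exact fun τ hτ => (hder τ ⟨hτ.1, hτ.2.le⟩).hasDerivWithinAt
    · have h1 : Φ (1 / 500) = 0 := by
        rw [hΦ, hF, hH]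
        simp
      rw [h1]; simp
    · intro τ
      exact (hasDerivAt_id τ).sub_const _
    · intro τ hτ hn
      have hτ' : τ ∈ Icc (1 / 500 : ℝ) (1 / 2) := ⟨hτ.1, hτ.2.le⟩
      have hn1 : ‖Φ τ‖ ≤ 1 := by rw [hn]; linarith [hτ.2]
      obtain ⟨hb, hp⟩ := hcons τ hτ' hn1
      obtain ⟨hR, _⟩ := region A τ (a τ) (p τ) hA0 hτ'.1 hτ'.2 hb hp
      obtain ⟨_, _, hest⟩ := hsys τ hτ'
      obtain ⟨d1, d2⟩ := deriv_bd2 A τ (a τ) (p τ) (a' τ) (p' τ) hA hτ'.1 hτ'.2 hb hp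
        (hest (Or.inr hR))
      rw [Prod.norm_def, max_lt_iff]
      constructor
      · show |(a' τ - 1) / (1 / 50000)| < 1
        rw [abs_div, abs_of_pos (by norm_num : (0 : ℝ) < 1 / 50000), div_lt_one (by norm_num)]
        exact d1.trans_lt (by norm_num)
      · show |(p' τ - 3 * A) / (3 * A / 50000)| < 1
        rw [abs_div, abs_of_pos (by positivity : (0 : ℝ) < 3 * A / 50000),
          div_lt_one (by positivity)]
        refine d2.trans_lt ?_
        linarith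
  have hall : ∀ τ ∈ Icc (1 / 500 : ℝ) (1 / 2), ‖Φ τ‖ ≤ 1 := fun τ hτ =>
    (hmain hτ).trans (by linarith [hτ.2])
  refine ⟨fun τ hτ => ?_, ?_, ?_⟩
  · obtain ⟨hb, hp⟩ := hcons τ hτ (hall τ hτ)
    exact (region A τ (a τ) (p τ) hA0 hτ.1 hτ.2 hb hp).1
  · have h1 : |F (1 / 2)| ≤ 1 :=
      (norm_fst_le (Φ (1 / 2))).trans (hall (1 / 2) ⟨by norm_num, le_rfl⟩)
    rw [hF] at h1
    simp only at h1
    rw [abs_div, div_le_one (by positivity), abs_of_pos (by norm_num : (0 : ℝ) < 1 / 50000)] at h1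
    exact h1
  · have h1 : |H (1 / 2)| ≤ 1 :=
      (norm_snd_le (Φ (1 / 2))).trans (hall (1 / 2) ⟨by norm_num, le_rfl⟩)
    rw [hH] at h1
    simp only at h1
    rw [abs_div, div_le_one (by positivity), abs_of_pos (by positivity : (0 : ℝ) < 3 * A / 50000)]
      at h1
    exact h1

end Pool.Agent.Run7.h781.TA
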